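import Pool.Agent.Lib.MP_144d21_co.XU.Iface

/-!
# MP_144d21_co, project XU: the chromatic polynomial exists
-/

set_option autoImplicit false

namespace Pool.Agent.Xu.H30

open Finset Polynomial Pool.Agent.Xu

variable {V : Type} [Fintype V] [DecidableEq V]

theorem IsChi_chi {P : ℤ[X]} {G : SimpleGraph V} {S : Finset V} (h : IsChi P G S) :
    IsChi (Pool.Agent.Xu.chi G S) G S := by
  rw [← h.eq_chi]
  exact h

/-- graphs without edges -/
theorem isChi_of_no_edge (G : SimpleGraph V) (S : Finset V)
    (h : ∀ v ∈ S, ∀ w ∈ S, ¬ G.Adj v w) : IsChi (X ^ S.card) G S := by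
  classical
  intro q
  have h1 : cols G S q = Fintype.piFinset fun v => if v ∈ S then range q else {0} := by
    ext c
    rw [mem_cols, Fintype.mem_piFinset]
    constructor
    · rintro ⟨h2, h3, -⟩ v
      by_cases hv : v ∈ S
      · rw [if_pos hv, mem_range]; exact h2 v hv
      · rw [if_neg hv, mem_singleton]; exact h3 v hv
    · intro h2
      refine ⟨fun v hv => ?_, fun v hv => ?_, fun u hu v hv ha => absurd ha (h u hu v hv)⟩
      · have := h2 v
        rwa [if_pos hv, mem_range] at this
      · have := h2 v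
        rwa [if_neg hv, mem_singleton] at this
  rw [h1, Fintype.card_piFinset]
  have h2 : ∀ v : V, (if v ∈ S then range q else {0} : Finset ℕ).card =
      if v ∈ S then q else 1 := by
    intro v
    split_ifs <;> simp
  rw [Finset.prod_congr rfl fun v _ => h2 v, Finset.prod_ite_mem, Finset.univ_inter,
    Finset.prod_const]
  simp

theorem isChi_exists (h1 : ColdcS) (h2 : NecntS) : ∀ (n : ℕ) (G : SimpleGraph V) (S : Finset V),
    ne G S ≤ n → ∃ P, IsChi P G S := by
  classical
  intro n
  induction n with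
  | zero =>
    intro G S hn
    refine ⟨_, isChi_of_no_edge G S fun v hv w hw ha => ?_⟩
    have h3 := (((h2 V G S).1 v hv w hw ha).1)
    omega
  | succ n ih =>
    intro G S hn
    by_cases hE : ∀ v ∈ S, ∀ w ∈ S, ¬ G.Adj v w
    · exact ⟨_, isChi_of_no_edge G S hE⟩
    · push Not at hE
      obtain ⟨v, hv, w, hw, ha⟩ := hE
      obtain ⟨h3, h4⟩ := (h2 V G S).1 v hv w hw ha
      obtain ⟨P, hP⟩ := ih (del G v w) S (by omega)
      obtain ⟨Q, hQ⟩ := ih (con G v w) (S.erase v) (by omega)
      refine ⟨P - Q, fun q => ?_⟩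
      rw [eval_sub, hP q, hQ q]
      have h5 := h1 V G S v w hv hw ha q
      rw [h5]
      push_cast
      ring

/-- module CHI -/
theorem chi (h1 : ColdcS) (h2 : NecntS) : ChiS := by
  intro V _ _ G S
  obtain ⟨P, hP⟩ := isChi_exists h1 h2 (ne G S) G S le_rfl
  exact IsChi_chi hP

end Pool.Agent.Xu.H30
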