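import Pool.Agent.Lib.MP_144d21_co.XU.Iface

/-!
# MP_144d21_co, project XU: the stress of `K_5`
-/

set_option autoImplicit false

namespace Pool.Agent.Xu.H30

open Finset Polynomial Pool.Agent.Xu

variable {V : Type} [Fintype V] [DecidableEq V]

omit [Fintype V] [DecidableEq V] in
/-- an affine dependency of five points in general position with all coefficients nonzero -/
theorem five_dep {p : V → Fin 3 → ℝ} (hp : GP p) (a b c d e : V) (hab : a ≠ b) (hac : a ≠ c)
    (had : a ≠ d) (hae : a ≠ e) (hbc : b ≠ c) (hbd : b ≠ d) (hbe : b ≠ e) (hcd : c ≠ d)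
    (hce : c ≠ e) (hde : d ≠ e) :
    ∃ α β γ δ ε : ℝ, α ≠ 0 ∧ β ≠ 0 ∧ γ ≠ 0 ∧ δ ≠ 0 ∧ ε ≠ 0 ∧ α + β + γ + δ + ε = 0 ∧
      ∀ k, α * p a k + β * p b k + γ * p c k + δ * p d k + ε * p e k = 0 := by
  have h1 : ¬ LinearIndependent ℝ
      (![p b - p a, p c - p a, p d - p a, p e - p a] : Fin 4 → Fin 3 → ℝ) := by
    intro h
    have := h.fintype_card_le_finrank
    simp at this
  rw [Fintype.not_linearIndependent_iff] at h1
  obtain ⟨g, hg, i, hi⟩ := h1
  rw [Fin.sum_univ_four] at hg
  simp only [Matrix.cons_val_zero, Matrix.cons_val_one, Matrix.cons_val] at hg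
  have hk : ∀ k, g 0 * (p b k - p a k) + g 1 * (p c k - p a k) + g 2 * (p d k - p a k) +
      g 3 * (p e k - p a k) = 0 := by
    intro k
    have := congrFun hg k
    simpa using this
  -- each coefficient is nonzero
  have key : ¬ (g 0 = 0 ∧ g 1 = 0 ∧ g 2 = 0 ∧ g 3 = 0) := by
    rintro ⟨h0, h1, h2, h3⟩
    apply hi
    fin_cases i <;> assumption
  have g3 : g 3 ≠ 0 := by
    intro h3
    have := hp.four a b c d hab hac had hbc hbd hcd (g 0) (g 1) (g 2) (by
      funext k
      have := hk k
      simp only [Pi.add_apply, Pi.smul_apply, Pi.sub_apply, smul_eq_mul, Pi.zero_apply]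
      rw [h3] at this
      linarith)
    exact key ⟨this.1, this.2.1, this.2.2, h3⟩
  have g2 : g 2 ≠ 0 := by
    intro h3
    have := hp.four a b c e hab hac hae hbc hbe hce (g 0) (g 1) (g 3) (by
      funext k
      have := hk k
      simp only [Pi.add_apply, Pi.smul_apply, Pi.sub_apply, smul_eq_mul, Pi.zero_apply]
      rw [h3] at this
      linarith)
    exact key ⟨this.1, this.2.1, h3, this.2.2⟩
  have g1 : g 1 ≠ 0 := by
    intro h3
    have := hp.four a b d e hab had hae hbd hbe hde (g 0) (g 2) (g 3) (by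
      funext k
      have := hk k
      simp only [Pi.add_apply, Pi.smul_apply, Pi.sub_apply, smul_eq_mul, Pi.zero_apply]
      rw [h3] at this
      linarith)
    exact key ⟨this.1, h3, this.2.1, this.2.2⟩
  have g0 : g 0 ≠ 0 := by
    intro h3
    have := hp.four a c d e hac had hae hcd hce hde (g 1) (g 2) (g 3) (by
      funext k
      have := hk k
      simp only [Pi.add_apply, Pi.smul_apply, Pi.sub_apply, smul_eq_mul, Pi.zero_apply]
      rw [h3] at this
      linarith)
    exact key ⟨h3, this.1, this.2.1, this.2.2⟩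
  have ga : -(g 0 + g 1 + g 2 + g 3) ≠ 0 := by
    intro h3
    have := hp.four b c d e hbc hbd hbe hcd hce hde (g 1) (g 2) (g 3) (by
      funext k
      have := hk k
      simp only [Pi.add_apply, Pi.smul_apply, Pi.sub_apply, smul_eq_mul, Pi.zero_apply]
      have h4 : g 0 = - g 1 - g 2 - g 3 := by linarith
      rw [h4] at this
      linear_combination this)
    exact key ⟨by linarith [this.1, this.2.1, this.2.2], this.1, this.2.1, this.2.2⟩
  refine ⟨_, g 0, g 1, g 2, g 3, ga, g0, g1, g2, g3, by ring, fun k => ?_⟩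
  have := hk k
  linear_combination this

/-- module K5DEP -/
theorem k5dep : K5depS := by
  intro V _ _ p hp a b c d e hab hac had hae hbc hbd hbe hcd hce hde
  obtain ⟨α, β, γ, δ, ε, hα, hβ, hγ, hδ, hε, hs, hk⟩ :=
    five_dep hp a b c d e hab hac had hae hbc hbd hbe hcd hce hde
  have hrow : ∀ (u v x : V) (k : Fin 3), row p u v x k =
      (if x = u then (1 : ℝ) else 0) * (p u k - p v k) +
        (if x = v then (1 : ℝ) else 0) * (p v k - p u k) := by
    intro u v x k
    unfold row
    rw [Pi.add_apply, Pi.add_apply, Pi.single_apply, Pi.single_apply]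
    congr 1
    · split_ifs <;> simp
    · split_ifs <;> simp
  have hL : (α * β) • row p a b + ((α * γ) • row p a c + (α * δ) • row p a d +
      (α * ε) • row p a e + (β * γ) • row p b c + (β * δ) • row p b d + (β * ε) • row p b e +
      (γ * δ) • row p c d + (γ * ε) • row p c e + (δ * ε) • row p d e) = 0 := by
    funext x k
    simp only [Pi.add_apply, Pi.smul_apply, smul_eq_mul, Pi.zero_apply, hrow]
    have h1 := hk k
    generalize (if x = a then (1 : ℝ) else 0) = ia
    generalize (if x = b then (1 : ℝ) else 0) = ib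
    generalize (if x = c then (1 : ℝ) else 0) = ic
    generalize (if x = d then (1 : ℝ) else 0) = id
    generalize (if x = e then (1 : ℝ) else 0) = ie
    linear_combination (ia * α * p a k + ib * β * p b k + ic * γ * p c k + id * δ * p d k +
      ie * ε * p e k) * hs - (ia * α + ib * β + ic * γ + id * δ + ie * ε) * h1
  have h2 : row p a b = (-(α * β)⁻¹) • ((α * γ) • row p a c + (α * δ) • row p a d +
      (α * ε) • row p a e + (β * γ) • row p b c + (β * δ) • row p b d + (β * ε) • row p b e +
      (γ * δ) • row p c d + (γ * ε) • row p c e + (δ * ε) • row p d e) := by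
    have h3 := eq_neg_of_add_eq_zero_left hL
    rw [neg_smul, ← smul_neg, ← h3, smul_smul, inv_mul_cancel₀ (mul_ne_zero hα hβ), one_smul]
  rw [h2]
  apply Submodule.smul_mem
  repeat' apply Submodule.add_mem
  all_goals
    apply Submodule.smul_mem
    apply Submodule.subset_span
    simp

end Pool.Agent.Xu.H30
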