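import Pool.Agent.Lib.MP_144d21_co.XU.Iface

/-!
# MP_144d21_co, project XU: linear algebra of five stars
-/

set_option autoImplicit false

namespace Pool.Agent.Xu.H30

open Finset Polynomial Pool.Agent.Xu

theorem fifth : ∀ a b c d : Fin 5, a ≠ b → a ≠ c → a ≠ d → b ≠ c → b ≠ d → c ≠ d →
    ∃ w : Fin 5, w ≠ a ∧ w ≠ b ∧ w ≠ c ∧ w ≠ d ∧
      ∀ k : Fin 5, k = a ∨ k = b ∨ k = c ∨ k = d ∨ k = w := by
  intro a b c d hab hac had hbc hbd hcd
  have hcard : (({a, b, c, d} : Finset (Fin 5))).card = 4 := by
    rw [card_insert_of_notMem, card_insert_of_notMem, card_insert_of_notMem, card_singleton]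
    · simpa using hcd
    · simp [hbc, hbd]
    · simp [hab, hac, had]
  have hcompl : (({a, b, c, d} : Finset (Fin 5))ᶜ).card = 1 := by
    rw [card_compl, hcard, Fintype.card_fin]
  obtain ⟨w, hw⟩ := card_eq_one.1 hcompl
  have hwm : w ∈ (({a, b, c, d} : Finset (Fin 5))ᶜ) := by rw [hw]; exact mem_singleton_self w
  simp only [mem_compl, mem_insert, mem_singleton, not_or] at hwm
  refine ⟨w, hwm.1, hwm.2.1, hwm.2.2.1, hwm.2.2.2, fun k => ?_⟩
  by_contra hk
  simp only [not_or] at hk
  have hkm : k ∈ (({a, b, c, d} : Finset (Fin 5))ᶜ) := by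
    simp only [mem_compl, mem_insert, mem_singleton, not_or]
    exact ⟨hk.1, hk.2.1, hk.2.2.1, hk.2.2.2.1⟩
  rw [hw, mem_singleton] at hkm
  exact hk.2.2.2.2 hkm

/-- module LIN5 -/
theorem lin5 : Lin5S := by
  intro M _ _ x hsymm hstar hred
  by_cases hall : ∀ i j, i ≠ j → x i j = 0
  · refine ⟨0, fun i j hij => ?_⟩
    rw [hall i j hij]
    exact Submodule.zero_mem _
  push Not at hall
  obtain ⟨a, b, hab, h0⟩ := hall
  refine ⟨x a b, ?_⟩
  set u := x a b with hu
  by_contra hcon
  push Not at hcon
  obtain ⟨c, d, hcd, hcdu⟩ := hcon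
  -- transport of membership
  have tr : ∀ y z : M, y ∈ Submodule.span ℝ ({z} : Set M) →
      z ∈ Submodule.span ℝ ({u} : Set M) → y ∈ Submodule.span ℝ ({u} : Set M) := by
    intro y z hy hz
    exact (Submodule.span_singleton_le_iff_mem _ _).2 hz hy
  have Fa : ∀ k, k ≠ a → x a k ∈ Submodule.span ℝ ({u} : Set M) := by
    intro k hk
    exact hstar a b k hab (Ne.symm hk) h0
  have Fb : ∀ k, k ≠ b → x b k ∈ Submodule.span ℝ ({u} : Set M) := by
    intro k hk
    have := hstar b a k hab.symm (Ne.symm hk) (by rw [hsymm b a]; exact h0)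
    rwa [hsymm b a] at this
  have hca : c ≠ a := by
    rintro rfl
    exact hcdu (Fa d hcd.symm)
  have hcb : c ≠ b := by
    rintro rfl
    exact hcdu (Fb d hcd.symm)
  have hda : d ≠ a := by
    rintro rfl
    apply hcdu
    rw [hsymm]
    exact Fa c hcd
  have hdb : d ≠ b := by
    rintro rfl
    apply hcdu
    rw [hsymm]
    exact Fb c hcd
  have hcd0 : x c d ≠ 0 := by
    intro h
    apply hcdu
    rw [h]
    exact Submodule.zero_mem _
  have Zc : ∀ k, k ≠ c → x c k ∈ Submodule.span ℝ ({u} : Set M) → x c k = 0 := by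
    intro k hk h
    by_contra hne
    exact hcdu (tr _ _ (hstar c k d (Ne.symm hk) hcd hne) h)
  have Zd : ∀ k, k ≠ d → x d k ∈ Submodule.span ℝ ({u} : Set M) → x d k = 0 := by
    intro k hk h
    by_contra hne
    apply hcdu
    rw [hsymm c d]
    exact tr _ _ (hstar d k c (Ne.symm hk) hcd.symm hne) h
  have zca : x c a = 0 := Zc a hca.symm (by rw [hsymm]; exact Fa c hca)
  have zcb : x c b = 0 := Zc b hcb.symm (by rw [hsymm]; exact Fb c hcb)
  have zda : x d a = 0 := Zd a hda.symm (by rw [hsymm]; exact Fa d hda)
  have zdb : x d b = 0 := Zd b hdb.symm (by rw [hsymm]; exact Fb d hdb)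
  obtain ⟨w, hwa, hwb, hwc, hwd, hall⟩ := fifth a b c d hab hca.symm hda.symm hcb.symm hdb.symm hcd
  -- case 1: the star of `w` is in the span of `u`
  have case1 : (∀ k, k ≠ w → x w k ∈ Submodule.span ℝ ({u} : Set M)) → False := by
    intro hw
    apply hcdu
    have h1 := hred c d hcd
    refine (Submodule.span_le.2 ?_) h1
    rintro y ⟨k, l, hkl, hn1, hn2, rfl⟩
    change x k l ∈ Submodule.span ℝ ({u} : Set M)
    have hk := hall k
    have hl := hall l
    by_cases ka : k = a
    · subst ka; exact Fa l hkl.symm
    by_cases kb : k = b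
    · subst kb; exact Fb l hkl.symm
    by_cases kw : k = w
    · subst kw; exact hw l hkl.symm
    by_cases la : l = a
    · subst la; rw [hsymm]; exact Fa k hkl
    by_cases lb : l = b
    · subst lb; rw [hsymm]; exact Fb k hkl
    by_cases lw : l = w
    · subst lw; rw [hsymm]; exact hw k hkl
    exfalso
    have hk' : k = c ∨ k = d := by
      rcases hk with h | h | h | h | h
      · exact absurd h ka
      · exact absurd h kb
      · exact Or.inl h
      · exact Or.inr h
      · exact absurd h kw
    have hl' : l = c ∨ l = d := by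
      rcases hl with h | h | h | h | h
      · exact absurd h la
      · exact absurd h lb
      · exact Or.inl h
      · exact Or.inr h
      · exact absurd h lw
    rcases hk' with rfl | rfl <;> rcases hl' with rfl | rfl
    · exact hkl rfl
    · exact hn1 ⟨rfl, rfl⟩
    · exact hn2 ⟨rfl, rfl⟩
    · exact hkl rfl
  by_cases haw : x a w = 0
  · by_cases hbw : x b w = 0
    · -- the third hypothesis at `a b`
      have h1 := hred a b hab
      have h2 : x a b ∈ Submodule.span ℝ ({x c d} : Set M) := by
        refine (Submodule.span_le.2 ?_) h1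
        rintro y ⟨k, l, hkl, hn1, hn2, rfl⟩
        change x k l ∈ Submodule.span ℝ ({x c d} : Set M)
        have Sc : ∀ l, l ≠ c → x c l ∈ Submodule.span ℝ ({x c d} : Set M) := fun l hl =>
          hstar c d l hcd (Ne.symm hl) hcd0
        have Sd : ∀ l, l ≠ d → x d l ∈ Submodule.span ℝ ({x c d} : Set M) := fun l hl => by
          have := hstar d c l hcd.symm (Ne.symm hl) (by rw [hsymm d c]; exact hcd0)
          rwa [hsymm d c] at this
        have hk := hall k
        have hl := hall l
        by_cases kc : k = c
        · subst kc; exact Sc l hkl.symm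
        by_cases kd : k = d
        · subst kd; exact Sd l hkl.symm
        by_cases lc : l = c
        · subst lc; rw [hsymm k l]; exact Sc k hkl
        by_cases ld : l = d
        · subst ld; rw [hsymm k l]; exact Sd k hkl
        have hk' : k = a ∨ k = b ∨ k = w := by
          rcases hk with h | h | h | h | h
          · exact Or.inl h
          · exact Or.inr (Or.inl h)
          · exact absurd h kc
          · exact absurd h kd
          · exact Or.inr (Or.inr h)
        have hl' : l = a ∨ l = b ∨ l = w := by
          rcases hl with h | h | h | h | h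
          · exact Or.inl h
          · exact Or.inr (Or.inl h)
          · exact absurd h lc
          · exact absurd h ld
          · exact Or.inr (Or.inr h)
        have hz : x k l = 0 := by
          rcases hk' with rfl | rfl | rfl <;> rcases hl' with rfl | rfl | rfl
          · exact absurd rfl hkl
          · exact absurd ⟨rfl, rfl⟩ hn1
          · exact haw
          · exact absurd ⟨rfl, rfl⟩ hn2
          · exact absurd rfl hkl
          · exact hbw
          · rw [hsymm]; exact haw
          · rw [hsymm]; exact hbw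
          · exact absurd rfl hkl
        rw [hz]
        exact Submodule.zero_mem _
      obtain ⟨t, ht⟩ := Submodule.mem_span_singleton.1 h2
      have ht0 : t ≠ 0 := by
        rintro rfl
        rw [zero_smul] at ht
        exact h0 ht.symm
      apply hcdu
      rw [Submodule.mem_span_singleton]
      exact ⟨t⁻¹, by rw [hu, ← ht, smul_smul, inv_mul_cancel₀ ht0, one_smul]⟩
    · apply case1
      intro k hk
      refine tr _ _ (hstar w b k hwb (Ne.symm hk) (by rw [hsymm w b]; exact hbw)) ?_
      rw [hsymm w b]
      exact Fb w hwb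
  · apply case1
    intro k hk
    refine tr _ _ (hstar w a k hwa (Ne.symm hk) (by rw [hsymm w a]; exact haw)) ?_
    rw [hsymm w a]
    exact Fa w hwa

end Pool.Agent.Xu.H30
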