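import Pool.Agent.Lib.MP_144d21_co.XU.Iface

/-!
# MP_144d21_co, project XU: four neighbours
-/

set_option autoImplicit false

namespace Pool.Agent.Xu.H30

open Finset Polynomial Pool.Agent.Xu

/-- module ST4 -/
theorem st4 (h : K5depS) : St4S := by
  intro V _ _ p hp U v w hw hwv hrank
  by_contra hcon
  push Not at hcon
  have hk := h V p hp v (w 0) (w 1) (w 2) (w 3) (hwv 0).symm (hwv 1).symm (hwv 2).symm
    (hwv 3).symm (hw.ne (by decide)) (hw.ne (by decide)) (hw.ne (by decide)) (hw.ne (by decide))
    (hw.ne (by decide)) (hw.ne (by decide))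
  set W : Submodule ℝ (V → Fin 3 → ℝ) :=
    Submodule.span ℝ (Set.range fun i : Fin 3 => row p v (w i.succ)) with hW
  have hWm : ∀ i : Fin 3, row p v (w i.succ) ∈ U ⊔ W := fun i =>
    (le_sup_right : W ≤ U ⊔ W) (Submodule.subset_span ⟨i, rfl⟩)
  have hUm : ∀ i j, i ≠ j → row p (w i) (w j) ∈ U ⊔ W := fun i j hij =>
    (le_sup_left : U ≤ U ⊔ W) (hcon i j hij)
  have h0 : row p v (w 0) ∈ U ⊔ W := by
    refine (Submodule.span_le.2 ?_) hk
    intro y hy
    simp only [Set.mem_insert_iff, Set.mem_singleton_iff] at hy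
    rcases hy with rfl | rfl | rfl | rfl | rfl | rfl | rfl | rfl | rfl
    · exact hWm 0
    · exact hWm 1
    · exact hWm 2
    · exact hUm 0 1 (by decide)
    · exact hUm 0 2 (by decide)
    · exact hUm 0 3 (by decide)
    · exact hUm 1 2 (by decide)
    · exact hUm 1 3 (by decide)
    · exact hUm 2 3 (by decide)
  have hle : U ⊔ Submodule.span ℝ (Set.range fun i => row p v (w i)) ≤ U ⊔ W := by
    refine sup_le le_sup_left (Submodule.span_le.2 ?_)
    rintro _ ⟨i, rfl⟩
    induction i using Fin.cases with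
    | zero => exact h0
    | succ i => exact hWm i
  have h1 := Submodule.finrank_mono hle
  have h2 := Submodule.finrank_add_le_finrank_add_finrank U W
  have h3 : Module.finrank ℝ W ≤ 3 := by
    have := finrank_range_le_card (R := ℝ) (fun i : Fin 3 => row p v (w i.succ))
    simpa [Set.finrank] using this
  rw [hrank] at h1
  omega

end Pool.Agent.Xu.H30
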